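import Pool.Agent.FU3.Stmts

set_option autoImplicit false

open Finset

namespace Pool.Agent.FU3.H19

open Pool.Agent.FUR Pool.Agent.FU2

/-- formulas of level `0` have decision trees of depth `1` -/
theorem dt_one (hR : DTRStmt) {n : ℕ} (c : Bool) : ∀ (b : Bool) (e : ℕ) (φ : PF), AD b e φ → e = 0 →
    Dt 1 (fun x : Fin n → Bool => φ.eval (asg x c)) := by
  intro b e φ h
  induction h with
  | cst b d c' =>
    intro _
    exact Or.inl ⟨c', fun x => rfl⟩
  | var b d v =>
    intro _
    by_cases hv : v < n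
    · refine Or.inr ⟨⟨v, hv⟩, fun b' => ⟨b', fun x => ?_⟩⟩
      simp [rst, PF.eval, asg, hv]
    · refine Or.inl ⟨if v = n then c else false, fun x => ?_⟩
      simp [PF.eval, asg, hv]
  | neg h ih =>
    intro he
    exact hR.1 n 1 _ (ih he)
  | up h ih => intro he; omega
  | or h h' ih ih' => intro he; omega
  | and h h' ih ih' => intro he; omega

theorem itr (hA : ADLStmt) (hS : STPStmt) (hR : DTRStmt) : ITRStmt := by
  intro d
  induction d with
  | zero =>
    intro T A M n Λ hT hM hΛ hAD hA4 hn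
    refine ⟨fun _ => none, ?_, ?_⟩
    · simp [stars]
    · intro φ hφ c
      obtain ⟨⟨b, hb⟩, -⟩ := hAD φ hφ
      exact hR.2.2.1 n 1 T _ hT (hR.2.1 n 1 _ _ (dt_one hR c b 0 φ hb rfl))
  | succ d ihd =>
    intro T A M n Λ hT hM hΛ hAD hA4 hn
    have hex : ∀ φ : PF, ∃ (b : Bool) (l : List PF), φ ∈ Λ →
        l.length ≤ M ∧ (∀ ψ ∈ l, AD (!b) d ψ ∧ ψ.size ≤ M) ∧
        ∀ σ : ℕ → Bool, φ.eval σ =
          if b then l.any (fun ψ => ψ.eval σ) else l.all (fun ψ => ψ.eval σ) := by
      intro φ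
      by_cases hφ : φ ∈ Λ
      · obtain ⟨⟨b, hb⟩, hs⟩ := hAD φ hφ
        obtain ⟨l, hl1, hl2, hl3⟩ := hA b d φ hb
        exact ⟨b, l, fun _ => ⟨hl1.trans hs, fun ψ hψ => ⟨(hl2 ψ hψ).1, (hl2 ψ hψ).2.trans hs⟩, hl3⟩⟩
      · exact ⟨true, [], fun h => absurd h hφ⟩
    choose β L hL using hex
    have hlen : (Λ.flatMap L).length ≤ A * M := by
      rw [List.length_flatMap]
      have : (Λ.map fun a => (L a).length).sum ≤ (Λ.map fun a => (L a).length).length • M := by
        apply List.sum_le_card_nsmul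
        intro x hx
        obtain ⟨φ, hφ, rfl⟩ := List.mem_map.1 hx
        exact (hL φ hφ).1
      rw [List.length_map, smul_eq_mul] at this
      exact this.trans (Nat.mul_le_mul_right _ hΛ)
    have hT1 : 0 < 128 * T := by omega
    have hn' : (128 * T) ^ d ≤ n := by
      refine le_trans ?_ hn
      rw [pow_succ]
      exact Nat.le_mul_of_pos_right _ hT1
    obtain ⟨r', hr1, hr2⟩ := ihd T (A * M) M n (Λ.flatMap L) hT hM hlen (by
      intro ψ hψ
      obtain ⟨φ, hφ, hψ'⟩ := List.mem_flatMap.1 hψ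
      exact ⟨⟨_, ((hL φ hφ).2.1 ψ hψ').1⟩, ((hL φ hφ).2.1 ψ hψ').2⟩) (by
      calc 2 * (A * M) * M ^ d = 2 * A * M ^ (d + 1) := by ring
        _ ≤ _ := hA4) hn'
    have hpos : 0 < (128 * T) ^ d := pow_pos hT1 d
    have hst : 128 * T ≤ (stars r').card := by
      have h1 : (128 * T) ^ d * (128 * T) ≤ (128 * T) ^ d * (stars r').card := by
        rw [← pow_succ]
        exact hn.trans hr1
      exact Nat.le_of_mul_le_mul_left h1 hpos
    set n' := (stars r').card with hn'def
    set ℓ := n' / (64 * T) with hℓ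
    have h64 : 0 < 64 * T := by omega
    have hℓ1 : 1 ≤ ℓ := by
      rw [hℓ, Nat.le_div_iff_mul_le h64]
      omega
    have hℓ2 : 64 * T * ℓ ≤ n' := Nat.mul_div_le _ _
    have hℓ3 : n' ≤ 128 * T * ℓ := by
      have h1 : n' < 64 * T * ℓ + 64 * T := by
        have := Nat.lt_mul_div_succ n' h64
        rw [← hℓ] at this
        calc n' < 64 * T * (ℓ + 1) := this
          _ = 64 * T * ℓ + 64 * T := by ring
      have h2 : 64 * T ≤ 64 * T * ℓ := Nat.le_mul_of_pos_right _ hℓ1
      have h3 : 128 * T * ℓ = 64 * T * ℓ + 64 * T * ℓ := by ring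
      rw [h3]
      omega
    set P : List (PF × Bool) := Λ.flatMap (fun φ => [(φ, true), (φ, false)]) with hP
    have hPl : P.length ≤ 4 ^ T := by
      have h1 : P.length = 2 * Λ.length := by
        rw [hP, List.length_flatMap]
        simp [mul_comm]
      have h2 : 2 * A ≤ 2 * A * M ^ (d + 1) := Nat.le_mul_of_pos_right _ (pow_pos hM _)
      rw [h1]
      omega
    have hPm : ∀ i : Fin P.length, (P.get i).1 ∈ Λ := by
      intro i
      have h1 : P.get i ∈ P := List.get_mem _ _
      have h1' : P.get i ∈ Λ.flatMap (fun φ => [(φ, true), (φ, false)]) := h1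
      rw [List.mem_flatMap] at h1'
      obtain ⟨φ, hφ, h2⟩ := h1'
      have h3 : (P.get i).1 = φ := by
        rcases List.mem_cons.1 h2 with h | h
        · exact congrArg Prod.fst h
        · exact congrArg Prod.fst (List.mem_singleton.1 h)
      rw [h3]
      exact hφ
    obtain ⟨r, hrE, hrs, hrD⟩ := hS n T ℓ P.length r' (fun i => β (P.get i).1)
      (fun i => (L (P.get i).1).map (fun ψ => fun x : Fin n → Bool => ψ.eval (asg x (P.get i).2)))
      (fun i => fun x => (P.get i).1.eval (asg x (P.get i).2)) hT hℓ1 hℓ2 hPl (by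
        intro i g hg
        obtain ⟨ψ, hψ, rfl⟩ := List.mem_map.1 hg
        exact hr2 ψ (List.mem_flatMap.2 ⟨_, hPm i, hψ⟩) _) (by
        intro i x
        have := (hL _ (hPm i)).2.2 (asg x (P.get i).2)
        simp only [List.any_map, List.all_map]
        exact this)
    refine ⟨r, ?_, ?_⟩
    · rw [hrs]
      calc n ≤ (128 * T) ^ d * n' := hr1
        _ ≤ (128 * T) ^ d * (128 * T * ℓ) := Nat.mul_le_mul_left _ hℓ3
        _ = (128 * T) ^ (d + 1) * ℓ := by ring
    · intro φ hφ c
      have h1 : (φ, c) ∈ P := by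
        rw [hP]
        refine List.mem_flatMap.2 ⟨φ, hφ, ?_⟩
        cases c <;> simp
      obtain ⟨i, hi⟩ := List.get_of_mem h1
      have h2 := hrD i
      simp only [hi] at h2
      exact h2

end Pool.Agent.FU3.H19
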